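import Pool.Agent.V11266.GreedyPack

/-! # More than half of the copies in the Graham–Häggkvist conjecture

Let `G` be a `2m`-regular graph with `N` vertices; it has `m N` edges.  Every family of trees with
at most `m` edges each and at most `(m + 1) N / 2` edges in total packs into `G`, and for every tree
`T` with `m` edges there are `⌈(m + 1) N / (2 m)⌉ > N / 2` pairwise edge-disjoint copies of `T` in `G`
(a decomposition would consist of `N` copies). -/

set_option autoImplicit false

namespace Pool.Agent.Results.MP_df0165_co.HalfOfTheCopies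

open Finset

/-- The trees `T i` (on `n i` vertices, `i < c`) pack into the graph `G`: they can be mapped
injectively to the vertices of `G` such that edges go to edges and no edge of `G` is used by two
different trees. -/
def Packs {V : Type*} (G : SimpleGraph V) (c : ℕ) (n : Fin c → ℕ)
    (T : (i : Fin c) → SimpleGraph (Fin (n i))) : Prop :=
  ∃ f : (i : Fin c) → (Fin (n i) ↪ V),
    (∀ i a b, (T i).Adj a b → G.Adj (f i a) (f i b)) ∧
    ∀ i j : Fin c, i ≠ j → ∀ (a b : Fin (n i)) (x y : Fin (n j)),
      (T i).Adj a b → (T j).Adj x y → s(f i a, f i b) ≠ s(f j x, f j y)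

/-- Let `G` be a `2m`-regular graph on the non-empty finite set `V`.

(1) A finite family of trees packs into `G` if for each of its trees, of `t ≥ 1` edges say, the trees
of the family with at least `t` edges have together fewer than `(2m + 1 - t) |V| / 2 + t` edges.

(2) A finite family of trees with at most `m` edges each packs into `G` if it has altogether at most
`(m + 1) |V| / 2` edges.

(3) If `T` is a tree with `m` edges and `2 m (c - 1) < (m + 1) |V|`, then there are `c` copies of `T`
in `G` no two of which have a common edge. -/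
theorem result {V : Type*} [Fintype V] [Nonempty V] (G : SimpleGraph V) [DecidableRel G.Adj]
    (m : ℕ) (hG : G.IsRegularOfDegree (2 * m)) :
    (∀ (c : ℕ) (n : Fin c → ℕ) (T : (i : Fin c) → SimpleGraph (Fin (n i))),
      (∀ i, (T i).IsTree) →
      (∀ t, 1 ≤ t → (∃ j, (T j).edgeSet.ncard = t) →
        2 * ∑ i with t ≤ (T i).edgeSet.ncard, (T i).edgeSet.ncard <
          (2 * m + 1 - t) * Fintype.card V + 2 * t) →
      Packs G c n T) ∧
    (∀ (c : ℕ) (n : Fin c → ℕ) (T : (i : Fin c) → SimpleGraph (Fin (n i))),
      (∀ i, (T i).IsTree) → (∀ i, (T i).edgeSet.ncard ≤ m) →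
      2 * ∑ i, (T i).edgeSet.ncard ≤ (m + 1) * Fintype.card V →
      Packs G c n T) ∧
    (∀ (W : Type) [Fintype W] (T : SimpleGraph W), T.IsTree → T.edgeSet.ncard = m →
      ∀ c : ℕ, 2 * m * (c - 1) < (m + 1) * Fintype.card V →
      ∃ f : Fin c → (T →g G), (∀ i, Function.Injective (f i)) ∧
        ∀ i j, i ≠ j → ∀ d ∈ T.edgeSet, ∀ e ∈ T.edgeSet,
          Sym2.map (f i) d ≠ Sym2.map (f j) e) := by
  classical
  have hE : 2 * G.edgeSet.ncard = 2 * m * Fintype.card V := by
    have h1 := G.sum_degrees_eq_twice_card_edges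
    have h2 : ∑ v, G.degree v = Fintype.card V * (2 * m) := by
      rw [Finset.sum_congr rfl (fun v _ => hG v), Finset.sum_const, Finset.card_univ, smul_eq_mul]
    have h3 : G.edgeSet.ncard = G.edgeFinset.card := by
      rw [← SimpleGraph.coe_edgeFinset, Set.ncard_coe_finset]
    rw [h3, ← h1, h2, mul_comm]
  have hcard : ∀ (k : ℕ) (T : SimpleGraph (Fin k)), T.IsTree → T.edgeSet.ncard = k - 1 := by
    intro k T hT
    have h2 : T.edgeFinset.card + 1 = Fintype.card (Fin k) := hT.card_edgeFinset
    have h3 : T.edgeSet.ncard = T.edgeFinset.card := by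
      rw [← SimpleGraph.coe_edgeFinset, Set.ncard_coe_finset]
    rw [Fintype.card_fin] at h2
    omega
  have main : ∀ (c : ℕ) (n : Fin c → ℕ) (T : (i : Fin c) → SimpleGraph (Fin (n i))),
      (∀ i, (T i).IsTree) →
      (∀ t, 1 ≤ t → (∃ j, (T j).edgeSet.ncard = t) →
        2 * ∑ i with t ≤ (T i).edgeSet.ncard, (T i).edgeSet.ncard <
          (2 * m + 1 - t) * Fintype.card V + 2 * t) →
      Packs G c n T := by
    intro c n T hT h
    have hc : ∀ i, (T i).edgeSet.ncard = n i - 1 := fun i => hcard (n i) (T i) (hT i)
    simp only [hc] at h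
    obtain ⟨f, f1, f2, -⟩ := V11266.GreedyPack.pack_fam G n T
      (Finset.univ : Finset (Fin c)).card (Finset.univ : Finset (Fin c)) rfl (fun i _ => hT i) (by
        intro j _ h2
        have h3 := h (n j - 1) (by omega) ⟨j, rfl⟩
        have h4 : (Finset.univ.filter (fun i : Fin c => n j - 1 ≤ n i - 1)) =
            Finset.univ.filter (fun i : Fin c => n j ≤ n i) := by
          apply Finset.filter_congr
          intro i _
          constructor
          · intro h5; omega
          · intro h5; omega
        rw [h4] at h3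
        rw [hE, Nat.card_eq_fintype_card]
        have hself : n j - 1 ≤ ∑ i with n j ≤ n i, (n i - 1) :=
          Finset.single_le_sum (f := fun i => n i - 1) (fun _ _ => Nat.zero_le _)
            (Finset.mem_filter.2 ⟨Finset.mem_univ j, le_rfl⟩)
        obtain ⟨l, hl⟩ : ∃ l, n j = l + 2 := ⟨n j - 2, by omega⟩
        rw [hl] at h3 hself ⊢
        have e1 : l + 2 - 1 = l + 1 := by omega
        have e2 : l + 2 - 2 = l := by omega
        rw [e1] at h3 hself ⊢
        rw [e2]
        by_cases hlN : l ≤ 2 * m
        · obtain ⟨r, hr⟩ : ∃ r, 2 * m = l + r := ⟨2 * m - l, by omega⟩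
          have e3 : 2 * m + 1 - (l + 1) = r := by omega
          rw [e3] at h3
          rw [hr, Nat.add_mul]
          omega
        · have e3 : 2 * m + 1 - (l + 1) = 0 := by omega
          rw [e3, Nat.zero_mul] at h3
          omega)
    exact ⟨fun i => ⟨f i, (f1 i (Finset.mem_univ i)).1⟩,
      fun i a b hab => (f1 i (Finset.mem_univ i)).2 a b hab,
      fun i j hij a b x y hab hxy =>
        f2 i (Finset.mem_univ i) j (Finset.mem_univ j) hij a b x y hab hxy⟩
  refine ⟨main, ?_, ?_⟩
  · intro c n T hT hm h
    apply main c n T hT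
    rintro t ht1 ⟨j, hj⟩
    have h1 : ∑ i with t ≤ (T i).edgeSet.ncard, (T i).edgeSet.ncard ≤
        ∑ i, (T i).edgeSet.ncard :=
      Finset.sum_le_sum_of_subset (Finset.filter_subset _ _)
    have h2 := hm j
    obtain ⟨r, hr⟩ : ∃ r, m = t + r := ⟨m - t, by omega⟩
    have e1 : 2 * m + 1 - t = m + 1 + r := by omega
    rw [e1, Nat.add_mul]
    omega
  · intro W _ T hT hTm c hc
    have hW : Fintype.card W = m + 1 := by
      have h2 : T.edgeFinset.card + 1 = Fintype.card W := hT.card_edgeFinset
      have h3 : T.edgeSet.ncard = T.edgeFinset.card := by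
        rw [← SimpleGraph.coe_edgeFinset, Set.ncard_coe_finset]
      omega
    let e : W ≃ Fin (m + 1) := Fintype.equivFinOfCardEq hW
    let T' : SimpleGraph (Fin (m + 1)) := T.map e.toEmbedding
    let iso : T ≃g T' := SimpleGraph.Iso.map e T
    have hT' : T'.IsTree := iso.isTree_iff.1 hT
    have hT'm : T'.edgeSet.ncard = m := hcard (m + 1) T' hT'
    have hp : Packs G c (fun _ => m + 1) (fun _ => T') := by
      apply main c (fun _ => m + 1) (fun _ => T') (fun _ => hT')
      rintro t ht1 ⟨j, hj⟩
      rw [hT'm] at hj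
      subst hj
      simp only [hT'm]
      rw [Finset.filter_true_of_mem (by intro i _; exact le_rfl), Finset.sum_const,
        Finset.card_univ, Fintype.card_fin, smul_eq_mul]
      have e1 : 2 * m + 1 - m = m + 1 := by omega
      rw [e1]
      obtain ⟨q, hq⟩ : ∃ q, c = q + 1 := ⟨c - 1, by have := j.2; omega⟩
      rw [hq] at hc ⊢
      have e2 : q + 1 - 1 = q := by omega
      rw [e2] at hc
      have e3 : 2 * ((q + 1) * m) = 2 * m * q + 2 * m := by ring
      omega
    obtain ⟨f, f1, f2⟩ := hp
    refine ⟨fun i => ⟨fun w => f i (e w), ?_⟩, ?_, ?_⟩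
    · intro a b hab
      exact f1 i (e a) (e b) (iso.map_adj_iff.2 hab)
    · intro i a b hab
      exact e.injective ((f i).injective hab)
    · intro i j hij d hd e' he'
      induction d using Sym2.ind with
      | _ a b =>
        induction e' using Sym2.ind with
        | _ x y =>
          rw [Sym2.map_mk, Sym2.map_mk]
          exact f2 i j hij (e a) (e b) (e x) (e y) (iso.map_adj_iff.2 hd) (iso.map_adj_iff.2 he')

end Pool.Agent.Results.MP_df0165_co.HalfOfTheCopies
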